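import Pool.Agent.K1H10.SI.Main

/-! A star edge colouring of `K_8` with fourteen colours. -/

set_option autoImplicit false

namespace Pool.Agent.K1H10.SI

/-- A proper colouring in which, for distinct `u, v, w`, the colour of `u v` does not appear at `w`, or the colour of
`v w` does not appear at `u`, is a star colouring. -/
lemma star_of_triangles {n C : ℕ} (c : Sym2 (Fin n) → Fin C)
    (h : ∀ v1 v2 v3 : Fin n, v1 ≠ v2 → v1 ≠ v3 → v2 ≠ v3 →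
      ¬ ((∃ x, x ≠ v3 ∧ c s(v3, x) = c s(v1, v2)) ∧ ∃ y, y ≠ v1 ∧ c s(v1, y) = c s(v2, v3))) :
    Star c := by
  intro v0 v1 v2 v3 v4 h1 h2 h3 h4 h5 h6 h7 h8 h9 ⟨e1, e2⟩
  refine h v1 v2 v3 h4 h5 h6 ⟨⟨v4, h9, e2.symm⟩, v0, h1, ?_⟩
  rw [← e1, Sym2.eq_swap]

/-- the table of the colours -/
def T8 : Fin 8 → Fin 8 → Fin 14 := ![
  ![0, 2, 0, 6, 4, 8, 12, 10],
  ![2, 0, 6, 1, 9, 5, 10, 13],
  ![0, 6, 0, 3, 13, 11, 5, 8],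
  ![6, 1, 3, 0, 11, 12, 9, 4],
  ![4, 9, 13, 11, 0, 2, 0, 7],
  ![8, 5, 11, 12, 2, 0, 7, 1],
  ![12, 10, 5, 9, 0, 7, 0, 3],
  ![10, 13, 8, 4, 7, 1, 3, 0]]

lemma T8_symm : ∀ a b, T8 a b = T8 b a := by decide

/-- the colouring of `K_8` -/
def c8 : Sym2 (Fin 8) → Fin 14 := Sym2.lift ⟨T8, T8_symm⟩

lemma c8_apply (a b : Fin 8) : c8 s(a, b) = T8 a b := rfl

lemma T8_proper : ∀ a b d : Fin 8, a ≠ b → a ≠ d → b ≠ d → T8 a b ≠ T8 a d := by decide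

lemma T8_tri : ∀ v1 v2 v3 : Fin 8, v1 ≠ v2 → v1 ≠ v3 → v2 ≠ v3 →
    ¬ ((∃ x, x ≠ v3 ∧ T8 v3 x = T8 v1 v2) ∧ ∃ y, y ≠ v1 ∧ T8 v1 y = T8 v2 v3) := by decide

theorem c8_proper : Proper c8 := T8_proper

theorem c8_star : Star c8 := star_of_triangles c8 T8_tri

end Pool.Agent.K1H10.SI
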