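import Mathlib

/-! The lower bound `3 n` for the star chromatic index of the complete graph. -/

set_option autoImplicit false

namespace Pool.Agent.K1H10.SI

open Finset

section

variable {n C : ℕ} (c : Sym2 (Fin n) → Fin C)

/-- the vertices at which the colour `b` appears -/
def W (b : Fin C) : Finset (Fin n) := univ.filter fun v => ∃ x, x ≠ v ∧ c s(v, x) = b

/-- the colouring is proper -/
def Proper : Prop := ∀ a b d : Fin n, a ≠ b → a ≠ d → b ≠ d → c s(a, b) ≠ c s(a, d)

/-- no bicoloured path or cycle of length four -/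
def Star : Prop := ∀ v0 v1 v2 v3 v4 : Fin n,
        v0 ≠ v1 → v0 ≠ v2 → v0 ≠ v3 → v1 ≠ v2 → v1 ≠ v3 → v2 ≠ v3 →
        v4 ≠ v1 → v4 ≠ v2 → v4 ≠ v3 →
        ¬ (c s(v0, v1) = c s(v2, v3) ∧ c s(v1, v2) = c s(v3, v4))

lemma mem_W (b : Fin C) (v : Fin n) : v ∈ W c b ↔ ∃ x, x ≠ v ∧ c s(v, x) = b := by
  simp [W]

/-- summation over the ordered edges by colours -/
lemma sum_edges (hp : Proper c) (g : Fin C → ℕ) :
    ∑ v, ∑ w ∈ univ.erase v, g (c s(v, w)) = ∑ b, (W c b).card * g b := by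
  have h1 : ∀ v : Fin n, ∑ w ∈ univ.erase v, g (c s(v, w)) =
      ∑ b, if v ∈ W c b then g b else 0 := by
    intro v
    have h2 : (univ.filter fun b => v ∈ W c b) = (univ.erase v).image (fun w => c s(v, w)) := by
      ext b
      rw [mem_filter, mem_image, mem_W]
      simp
    rw [← sum_filter, h2, sum_image]
    intro w hw w' hw' he
    by_contra hne
    have e1 := (mem_erase.1 hw).1
    have e2 := (mem_erase.1 hw').1
    exact hp v w w' (Ne.symm e1) (Ne.symm e2) hne he
  rw [sum_congr rfl fun v _ => h1 v, sum_comm]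
  refine sum_congr rfl fun b _ => ?_
  rw [← sum_filter, sum_const, smul_eq_mul]
  congr 1
  congr 1
  ext v
  simp

/-- the third vertices `w` for the edge `u v` -/
def A (u v : Fin n) : Finset (Fin n) := ((W c (c s(u, v))).erase u).erase v

lemma card_A (u v : Fin n) (h : u ≠ v) : (A c u v).card + 2 = (W c (c s(u, v))).card := by
  have h1 : u ∈ W c (c s(u, v)) := (mem_W c _ _).2 ⟨v, h.symm, rfl⟩
  have h2 : v ∈ W c (c s(u, v)) := (mem_W c _ _).2 ⟨u, h, by rw [Sym2.eq_swap]⟩
  have h3 : v ∈ (W c (c s(u, v))).erase u := mem_erase.2 ⟨h.symm, h2⟩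
  have h4 := card_erase_add_one h1
  have h5 := card_erase_add_one h3
  unfold A
  omega

/-- the first vertices `u` for the edge `v w` -/
def L (v w : Fin n) : Finset (Fin n) := univ.filter fun u => u ≠ v ∧ w ∈ A c u v

lemma mem_A (u v w : Fin n) : w ∈ A c u v ↔
    w ≠ v ∧ w ≠ u ∧ ∃ x, x ≠ w ∧ c s(w, x) = c s(u, v) := by
  unfold A
  rw [mem_erase, mem_erase, mem_W]

lemma mem_L (u v w : Fin n) : u ∈ L c v w ↔
    u ≠ v ∧ w ≠ v ∧ w ≠ u ∧ ∃ x, x ≠ w ∧ c s(w, x) = c s(u, v) := by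
  unfold L
  rw [mem_filter, mem_A]
  simp

lemma L_sub (hp : Proper c) (hs : Star c) (v w : Fin n) :
    Disjoint (L c v w) (W c (c s(v, w))) := by
  rw [disjoint_left]
  intro u hu hW
  rw [mem_L] at hu
  obtain ⟨h1, h2, h3, x, h4, h5⟩ := hu
  rw [mem_W] at hW
  obtain ⟨t, h6, h7⟩ := hW
  have q1 : c s(u, v) ≠ c s(v, w) := by
    rw [Sym2.eq_swap]
    exact hp v u w h1.symm h2.symm h3.symm
  have q2 : x ≠ v := by
    rintro rfl
    apply q1
    rw [← h5, Sym2.eq_swap]
  have q3 : x ≠ u := by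
    rintro rfl
    have : c s(x, w) = c s(x, v) := by rw [← h5, Sym2.eq_swap]
    exact hp x w v h3.symm h1 h2 this
  have q4 : t ≠ v := by
    rintro rfl
    exact q1 h7
  have q5 : t ≠ w := by
    rintro rfl
    have : c s(t, u) = c s(t, v) := by rw [Sym2.eq_swap, h7, Sym2.eq_swap]
    exact hp t u v h3 h2 h1 this
  refine hs t u v w x h6 q4 q5 h1 h3.symm h2.symm q3 q2 h4 ⟨?_, ?_⟩
  · rw [Sym2.eq_swap, h7]
  · exact h5.symm

lemma L_disj (hp : Proper c) (hs : Star c) (v w : Fin n) :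
    Disjoint (L c v w) (L c w v) := by
  rw [disjoint_left]
  intro u hu hu'
  rw [mem_L] at hu hu'
  obtain ⟨h1, h2, h3, x, h4, h5⟩ := hu
  obtain ⟨-, -, -, x', h6, h7⟩ := hu'
  have q1 : x' ≠ u := by
    rintro rfl
    have : c s(x', v) = c s(x', w) := by rw [← h7, Sym2.eq_swap]
    exact hp x' v w h1 h3.symm h2.symm this
  have q2 : x' ≠ w := by
    rintro rfl
    have : c s(x', v) = c s(x', u) := by rw [Sym2.eq_swap, h7, Sym2.eq_swap]
    exact hp x' v u h2 h3 h1.symm this
  have q3 : x ≠ v := by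
    rintro rfl
    have : c s(x, w) = c s(x, u) := by rw [Sym2.eq_swap, h5, Sym2.eq_swap]
    exact hp x w u h2.symm h1.symm h3 this
  have q4 : x ≠ u := by
    rintro rfl
    have : c s(x, w) = c s(x, v) := by rw [← h5, Sym2.eq_swap]
    exact hp x w v h3.symm h1 h2 this
  refine hs x' v u w x h6 q1 q2 h1.symm h2.symm h3.symm q3 q4 h4 ⟨?_, ?_⟩
  · rw [Sym2.eq_swap, h7]
  · rw [h5, Sym2.eq_swap]

lemma card_L (hp : Proper c) (hs : Star c) (v w : Fin n) :
    (L c v w).card + (L c w v).card + (W c (c s(v, w))).card ≤ n := by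
  have h1 := L_sub c hp hs v w
  have h2 := L_sub c hp hs w v
  rw [Sym2.eq_swap] at h2
  have h3 := L_disj c hp hs v w
  have h4 : ((L c v w ∪ L c w v) ∪ W c (c s(v, w))).card ≤ n := by
    have := card_le_univ ((L c v w ∪ L c w v) ∪ W c (c s(v, w)))
    rwa [Fintype.card_fin] at this
  rw [card_union_of_disjoint (disjoint_union_left.2 ⟨h1, h2⟩), card_union_of_disjoint h3] at h4
  exact h4

/-- the number of the triples, counted in two ways -/
lemma double : ∑ v, ∑ w ∈ univ.erase v, (L c v w).card = ∑ u, ∑ v ∈ univ.erase u, (A c u v).card := by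
  have e1 : ∀ v : Fin n, ∑ w ∈ univ.erase v, (L c v w).card =
      ∑ u ∈ univ.erase v, (A c u v).card := by
    intro v
    have h1 : ∀ w : Fin n, (L c v w).card = ∑ u ∈ univ.erase v, if w ∈ A c u v then 1 else 0 := by
      intro w
      rw [← card_filter]
      congr 1
      ext u
      simp [L]
    have h2 : ∀ u : Fin n, (A c u v).card = ∑ w ∈ univ.erase v, if w ∈ A c u v then 1 else 0 := by
      intro u
      rw [← card_filter]
      congr 1
      ext w
      rw [mem_filter, mem_erase]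
      constructor
      · intro h
        exact ⟨⟨((mem_A c u v w).1 h).1, mem_univ _⟩, h⟩
      · exact fun h => h.2
    rw [sum_congr rfl fun w _ => h1 w, sum_congr rfl fun u _ => h2 u, sum_comm]
  rw [sum_congr rfl fun v _ => e1 v]
  have e2 : ∀ (F : Fin n → Fin n → ℕ), ∑ v, ∑ u ∈ univ.erase v, F u v =
      ∑ u, ∑ v ∈ univ.erase u, F u v := by
    intro F
    refine sum_comm' ?_
    intro x y
    simp [eq_comm, ne_comm]
  exact e2 _

lemma swap_sum (F : Fin n → Fin n → ℕ) : ∑ v, ∑ w ∈ univ.erase v, F w v =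
    ∑ v, ∑ w ∈ univ.erase v, F v w := by
  refine sum_comm' ?_
  intro x y
  simp [ne_comm]

theorem main (hp : Proper c) (hs : Star c) : 3 * n * (n - 1) ≤ C * (n + 4) := by
  set k : Fin C → ℕ := fun b => (W c b).card with hk
  have h0 : ∑ b, k b = n * (n - 1) := by
    have := sum_edges c hp (fun _ => 1)
    simp only [mul_one] at this
    rw [← this]
    simp
  have h1 : ∑ u, ∑ v ∈ univ.erase u, (W c (c s(u, v))).card = ∑ b, k b ^ 2 := by
    rw [sum_edges c hp (fun b => (W c b).card)]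
    refine sum_congr rfl fun b _ => ?_
    rw [hk, sq]
  have h2 : ∑ u, ∑ v ∈ univ.erase u, (A c u v).card + 2 * (n * (n - 1)) = ∑ b, k b ^ 2 := by
    rw [← h1]
    have h3 : ∑ u : Fin n, ∑ v ∈ univ.erase u, ((A c u v).card + 2) =
        ∑ u : Fin n, ∑ v ∈ univ.erase u, (W c (c s(u, v))).card := by
      refine sum_congr rfl fun u _ => sum_congr rfl fun v hv => ?_
      exact card_A c u v (Ne.symm (mem_erase.1 hv).1)
    rw [← h3]
    simp only [sum_add_distrib]
    simp
    ring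
  have h4 : 2 * ∑ u, ∑ v ∈ univ.erase u, (A c u v).card + ∑ b, k b ^ 2 ≤ n * (n * (n - 1)) := by
    rw [← double, two_mul, ← h1]
    nth_rewrite 2 [← swap_sum]
    rw [← sum_add_distrib, ← sum_add_distrib]
    have h5 : ∑ v : Fin n, ∑ _w ∈ univ.erase v, n = n * (n * (n - 1)) := by
      have h50 : ∀ v : Fin n, ∑ _w ∈ univ.erase v, n = (n - 1) * n := by
        intro v
        rw [sum_const, card_erase_of_mem (mem_univ _), card_univ, Fintype.card_fin, smul_eq_mul]
      rw [sum_congr rfl fun v _ => h50 v, sum_const, card_univ, Fintype.card_fin, smul_eq_mul]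
      ring
    rw [← h5]
    refine sum_le_sum fun v _ => ?_
    rw [← sum_add_distrib, ← sum_add_distrib]
    exact sum_le_sum fun w _ => card_L c hp hs v w
  have h6 : (n * (n - 1)) ^ 2 ≤ C * ∑ b, k b ^ 2 := by
    have := sq_sum_le_card_mul_sum_sq (s := (univ : Finset (Fin C))) (f := k)
    rwa [h0, card_univ, Fintype.card_fin] at this
  have h7 : 3 * ∑ b, k b ^ 2 ≤ (n + 4) * (n * (n - 1)) := by nlinarith
  rcases Nat.eq_zero_or_pos (n * (n - 1)) with h8 | h8
  · have : 3 * n * (n - 1) = 3 * (n * (n - 1)) := by ring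
    rw [this, h8]
    exact Nat.zero_le _
  · have h9 : (3 * n * (n - 1)) * (n * (n - 1)) ≤ (C * (n + 4)) * (n * (n - 1)) := by
      calc (3 * n * (n - 1)) * (n * (n - 1)) = 3 * (n * (n - 1)) ^ 2 := by ring
        _ ≤ 3 * (C * ∑ b, k b ^ 2) := Nat.mul_le_mul_left 3 h6
        _ = C * (3 * ∑ b, k b ^ 2) := by ring
        _ ≤ C * ((n + 4) * (n * (n - 1))) := Nat.mul_le_mul_left C h7
        _ = (C * (n + 4)) * (n * (n - 1)) := by ring
    exact Nat.le_of_mul_le_mul_right h9 h8

end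

end Pool.Agent.K1H10.SI
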